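import Mathlib
import Pool.Agent.H845.Orb.Main
import Pool.Agent.H857.MX.Good
import Pool.Graph.R_pool_sql_team_seeded_2aa45f1a.Q64.L.Thms

/-!
# The Tate-Beilinson conjecture of Jannsen for `A × X`, for arbitrary schemes `X` over finite fields
# and all abelian varieties `A` whose Weil numbers satisfy an exact criterion, in terms of
# factorizations over the CM fields

**The family.** Let `p` be a prime number, `q = p ^ a`, let `K i` (`i` in a finite set) be **any** CM
fields (they may be dependent, have the same Galois closure, or be equal), and `π i` Weil numbers for
`q` in `K i` such that each power `(π i) ^ n`, `n ≥ 1`, generates `K i` (`IsSimpleWeil`; by Honda and
Tate this is the situation for the simple factors of any abelian variety over a finite field, after a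
finite extension of the field, except for the supersingular factors).

**The criterion** (`IsFree`). Decompose the minimal polynomials (over `ℚ`) of all the numbers `π k`
into monic irreducible factors `g` over the field `K i`, and let `ratio g = g(0) / conj g(0)`. The
number `π i` is free if no positive power of `π i / conj (π i)` is a product of powers of the numbers
`ratio g`, where `g` runs over all these factors except for `X - π i` and `X - conj (π i)`. So one has
to look for multiplicative relations between a few elements of the group `K i ^×`; no Galois closure is
needed. **All `π i` are free if and only if there are no relations between the conjugates of the
`π i`, except for the trivial ones** (the angle rank is maximal, `MaximalAngleRank`), that is, if and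
only if there are no exotic Tate classes on the powers of the abelian varieties of the `π i`.

**The theorem.** Suppose that all `π i` are free. Let `f i` be monic polynomials whose complex
roots are conjugates of `π i` (`IsPolyOf`), for instance powers of the minimal polynomials, and
let `A` be an abelian variety over the field with `Q = q ^ s` elements, `s > 0`, which is
isogenous to a product of powers of abelian varieties which come from the field with `q` elements
and have the characteristic polynomials of Frobenius `f i`. Let `X` be **any** separated scheme of
finite type over the field with `Q` elements such that

* the eigenvalues of Frobenius on the `ℓ`-adic homology of `X` are free from the `π i`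
  (`FreeFrom`);
* the Frobenius endomorphism of `X` satisfies on each group of motivic homology of `A × X` a
  nonzero polynomial with rational coefficients whose complex roots have the same property. For
  instance this is so if the motive of `X` is built from finite-dimensional motives (Kimura) of
  smooth projective varieties which satisfy the first condition.

**The statement `TB` holds for `A × X` if and only if it holds for `X`.** More precisely, for all
`a`, `b` the following are equivalent: the regulator is an isomorphism of the motivic homology
`H_a(A × X, b)` (tensored with `ℚ_ℓ`) with the Galois invariants of the `ℓ`-adic homology, and the
eigenvalue `1` of Frobenius on it is semisimple (`TateBeilinsonTimes`); the same for all the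
groups `H_(a - 2 l)(X, b - l)`, `0 ≤ l ≤ dim A` (`TateBeilinson`). The motivic homology of `A × X`
and the Galois invariants satisfy a Kunneth formula, with finitely many products of divisor
classes on `A`. `X` may be singular, reducible and not proper; no resolution of singularities and
no case of the conjectures is assumed.

What is used of `A` are known theorems (`IsAbelian`): `H(A)` is generated by `H^1`, Frobenius is
diagonalizable on `H^1` (Weil), the theorem of Tate on divisors, and the nilpotence of
homologically trivial correspondences (Kimura). The theories relative to `X` are modelled by
`RelData`, with the formal properties in `IsTheory`: degrees, products with classes on `A`,
push-forward to `X`, the projection formula, the operation of the correspondences of `A` and of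
the Frobenius endomorphism of `X`. The groups of `X` are numbered as follows: the group of
bidegree `(i, j)` of `X` is `H_(-i)(X, -j)`, and the group of bidegree `(i, j)` of `A × X` is
`H_(2 d - i)(A × X, d - j)`, `d = dim A`; so the product with a class of codimension `c` on `A`
has the bidegree `(2 c, c)`. The operator `frobN`, `frobM` is the inverse of the push-forward by
the Frobenius endomorphism of `X`; then the Frobenius endomorphism of `A × X` is the
multiplication by `Q ^ j` on motivic homology (`IsPure`), and also on the Galois invariants of the
`ℓ`-adic homology groups (`InvN`, `InvM`); the generalized eigenvectors are in `GenN`, `GenM`.

Here a complex number `ρ ≠ 0` is free from the `π i` (`FreeFrom`) if a relation `ρ ^ N ∏ (φ (π i))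
^ n(φ) = q ^ c`, `N ≥ 1`, is possible only if `n(φ) = n(conj φ)` for all `φ`.

**The criteria** (`FreeCriteria`, part two of the theorem).

* The exactness of the criterion, see above. It is decided by the `p`-adic absolute values of the
  fields `K i`, that is, by the slopes.
* If the fields `K i` are pairwise independent then it is sufficient to consider the `π i` one by one:
  all the other `ratio g` are one.
* **Several Weil numbers in the same fields.** Let the fields `K i` be pairwise independent, with
  flips (`HasFlip`: for two embeddings `φ`, `ψ` which are not equal or conjugate, there is an
  automorphism which fixes `φ` and conjugates `ψ`), and let `π i j` be several Weil numbers in each
  `K i`. They are all free if and only if for each `i` the numbers `π i j / conj (π i j)` are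
  multiplicatively independent. A CM field has flips if some prime number divides its discriminant
  exactly once (and not the discriminant of the maximal real subfield). These are the products of
  non-isogenous abelian varieties with the same CM field.
* **Fields whose embeddings are indexed by subsets.** Let the embeddings of `K` up to conjugation be
  indexed by the subsets `Y` with `k` elements of a finite set `Ω` such that all permutations of `Ω`
  are induced by automorphisms (`IsSubsetField`; for example `K` is the compositum of an imaginary
  quadratic field and of the field generated by the sum of `k` roots of a totally real polynomial with
  the symmetric Galois group). Then `π` is free if for each `j ≤ k` there are `j` disjoint pairs `x`,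
  `y` of elements of `Ω` such that the sum over the `Y` which contain exactly one element of each pair,
  with the signs `(-1) ^ m`, `m` the number of the `y` in `Y`, of the slopes minus one half is not
  zero. For `k = 2` and the slopes `0`, `1` the abelian variety is given by a graph on `Ω`, and it is
  sufficient that the graph does not have one half of all the edges, is not regular, and that there
  are different `x`, `y`, `x'`, `y'` in `Ω` such that the number of edges among `x x'`, `y y'` is not
  the number of edges among `x y'`, `y x'`. The dimension is `n (n - 1) / 2`, `n` the number of
  elements of `Ω`, and the odd functions on the embeddings have three irreducible components.
* **The exact criterion for `X`.** All numbers unrelated to the fields `K i` are free from the `π i`.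
  A number `φ x` for an element `x` of a CM field `F` with `x * conj x = q ^ w` is free from the `π i`
  if and only if a positive power of `x / conj x` is a product of powers of the `ratio g`, `g` a factor
  over `F` of the minimal polynomial of some `π i`, only with exponents which are the same for `g` and
  for the conjugate polynomial. So the fields of the eigenvalues of `X` may be related or equal to
  the fields `K i`.

**What was known.** The framework and the geometric part (`Q64.L.tbReduces`) are those of the
theorem `AllCMTypesTimes` of the library, for eigenvalues unrelated to the CM fields and in terms
of the absence of relations; for this question there are bounds for the number of the exceptional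
slope types and isogeny classes. New here are the criterion, necessary and sufficient, for
arbitrary families in arbitrary dependent fields, and the varieties `X` with eigenvalues in
dependent fields.

**The proof.** Let there be a relation between the conjugates of the `π k` with an exponent which is
not symmetric at an embedding `φ` of `K i`. The product of its images under the (finitely many
permutations induced by the) automorphisms that fix `φ` is a relation with invariant exponents and
still not symmetric at `φ`. The orbits of the stabilizer of `φ` on the embeddings of `K k` are the
factors of the minimal polynomial of `π k` over `K i`, and the products of the conjugates over the
orbits are the constant terms of the factors, up to sign. So the relation is a relation in `K i`. For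
the subsets one shows by descending induction on `j` that all the alternating sums of a relation with
`j` pairs vanish: it is constant on the remaining elements, and it is orthogonal to the slopes.
-/

set_option autoImplicit false

namespace Pool.Agent.Results.MP_2ce3e7_ag.FactorizationCriterion

open NumberField Polynomial Pool.Agent.Y1.CT Pool.Agent.Y156.P Pool.Agent.H845.Orb
  Pool.Agent.H857.MX Pool.Agent.Q64.L

/-- **The statement `TB` (Tate and Beilinson) for `A × X` is equivalent to the statement `TB` for `X`, for all abelian
varieties `A` whose Weil numbers satisfy the criterion, which is necessary and sufficient for the absence
of relations, and all `X` with eigenvalues free from these Weil numbers.** -/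
theorem result :
    (∀ (p : ℕ) [Fact p.Prime] (a : ℕ), 0 < a → ∀ (I : Type) [Fintype I] (K : I → Type)
      [∀ i, Field (K i)] [∀ i, NumberField (K i)] [∀ i, IsCMField (K i)] (π : ∀ i, K i)
      (f : I → ℤ[X]), (∀ i, IsSimpleWeil p a (π i)) → (∀ i, IsFree π i) →
      (∀ i, IsPolyOf (π i) (f i)) → TBReduces (RootsIn (FreeFrom (p ^ a) π)) (p ^ a) f) ∧
    FreeCriteria :=
  ⟨fun _ _ _ ha _ _ _ _ _ _ _ _ hπ hfree hf =>
    tbReduces (Nat.one_lt_pow ha.ne' (Fact.out : Nat.Prime _).one_lt)
      (good_of_noRel (noRel_free hπ hfree hf) not_freeFrom_zero), freeCriteria_hold⟩

end Pool.Agent.Results.MP_2ce3e7_ag.FactorizationCriterion
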