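import Pool.Agent.H856.PR.Port
import Pool.Agent.H856.PR.Good
import Pool.Graph.R_pool_sql_team_seeded_2aa45f1a.Q64.L.Thms

/-!
# Jannsen's conjecture `TB` for `A × X`, where the Frobenius of the abelian variety `A` has degree two over a field with
# one place above `p`: an exact slope criterion

Let `E` be a number field, Galois over `ℚ`, totally real or CM, with only one place above the prime
number `p`, and `q = p ^ a`. Let `P i`, `i ∈ I`, be finitely many monic polynomials of degree two
with coefficients in the ring of integers of `E`, such that all the conjugates `Γ x` of their roots
have the absolute value `√q`, and which are not supersingular: the smaller slope `s i` of `P i` is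
not `1 / 2` (`NotSS`; `a [E : ℚ] (s i)` is the valuation `ht` of the norm of the linear
coefficient). For example the `P i` are the characteristic polynomials over `E` of the Frobenius
endomorphisms of abelian varieties `A i` over the field with `q` elements, of dimension
`[E : ℚ]`, with multiplication by `E`; or of powers of abelian varieties `A i` whose Frobenius
eigenvalues have degree at most two over `E`. We assume that two of the numbers `Γ x` are equal if
they are equal up to a root of unity (`reduced`); this can be achieved by a finite extension of the
ground field. Let `M` be a field of complex numbers, of finite or infinite degree over `ℚ`,
which contains the conjugates of `E` and none of the numbers `Γ x` (`Avoids`).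

1. There are no relations between the numbers `Γ x` and the numbers with a power in `M`, but those
which come from the pairs with the product `q` (`NoRelations`), if and only if (`SameSlopes`)
`s i = s j` for all `i`, `j` such that the quadratic extensions of `E` given by `P i` and `P j` are
conjugate: `disc (P i) σ (disc (P j))` is a square in `E` for an automorphism `σ` of `E`. For
example this is so if all `P i` are ordinary.

2. Suppose that this condition is satisfied. Let the `f j` be monic polynomials with integral
coefficients whose complex roots are among the numbers `Γ x` (as the characteristic polynomials of
the `A i`), and let `A` be an abelian variety over the field with `Q = q ^ s` elements, `s > 0`,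
which is isogenous to a product of powers of abelian varieties with the characteristic polynomials
`f j`. Let `X` be **any** separated scheme of finite type
over the field with `Q` elements such that

* the eigenvalues of Frobenius on the `ℓ`-adic homology of `X` have powers in `M` (`PowerIn`);
* the Frobenius endomorphism of `X` satisfies on each group of motivic homology of `A × X` a
  nonzero polynomial with rational coefficients whose complex roots have the same property. For
  instance this is so if the motive of `X` is built from finite-dimensional motives (Kimura) of
  smooth projective varieties which satisfy the first condition.

**The statement `TB` holds for `A × X` if and only if it holds for `X`.** More precisely, for all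
`a`, `b` the following are equivalent: the regulator is an isomorphism of the motivic homology
`H_a(A × X, b)` (tensored with `ℚ_ℓ`) with the Galois invariants of the `ℓ`-adic homology, and the
eigenvalue `1` of Frobenius on it is semisimple (`TateBeilinsonTimes`); the same for all the
groups `H_(a - 2 l)(X, b - l)`, `0 ≤ l ≤ dim A` (`TateBeilinson`). The motivic homology of `A × X`
and the Galois invariants satisfy a Kunneth formula, with finitely many products of divisor
classes on `A`. `X` may be singular, reducible and not proper; no resolution of singularities and
no case of the conjectures is assumed.

What is used of `A` are known theorems (`IsAbelian`): `H(A)` is generated by `H^1`, Frobenius is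
diagonalizable on `H^1` (Weil), the theorem of Tate on divisors, and the nilpotence of
homologically trivial correspondences (Kimura). The theories relative to `X` are modelled by
`RelData`, with the formal properties in `IsTheory`: degrees, products with classes on `A`,
push-forward to `X`, the projection formula, the operation of the correspondences of `A` and of
the Frobenius endomorphism of `X`. The groups of `X` are numbered as follows: the group of
bidegree `(i, j)` of `X` is `H_(-i)(X, -j)`, and the group of bidegree `(i, j)` of `A × X` is
`H_(2 d - i)(A × X, d - j)`, `d = dim A`; so the product with a class of codimension `c` on `A`
has the bidegree `(2 c, c)`. The operator `frobN`, `frobM` is the inverse of the push-forward by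
the Frobenius endomorphism of `X`; then the Frobenius endomorphism of `A × X` is the
multiplication by `Q ^ j` on motivic homology (`IsPure`), and also on the Galois invariants of the
`ℓ`-adic homology groups (`InvN`, `InvM`); the generalized eigenvectors are in `GenN`, `GenM`.

The framework and the geometric part (`tbReduces`) are those of the library (helper492 and the
hand-ins `AllCMTypesTimes`), as in the hand-ins `SharpExceptionalSet` and `FactorizationCriterion`
of this run, which ask that there are no relations. The new part is the criterion: which abelian
varieties with multiplication by the given field `E` have no relations, with arbitrary other
factors, by the slopes alone; there is no assumption on the Galois groups of the fields of the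
Frobenius elements, and the `A i` may have any dimension and number. The Tate classes on the
products of the `A i` themselves, without the assumption `reduced` and with supersingular
factors, are in `MP_ee618e_ag.ProductsWithOnePlace`.

The proof of 1. Let `v` be a place above `p` of the algebraic numbers. As `E` has only one place above
`p`, all places are `v g`, where `g` fixes `E`. Such `g` permute the two roots of each `φ (P i)`,
by a character of order at most two, so `v (g Γ x) - v (q) / 2` is `± (1 / 2 - s i) v (q) χ_x (g)`.
Suppose that a product of numbers `Γ x` has a power in `M`. As `Γ x` is not in `M`, there is a `g₀`
which fixes `M` with `χ_x (g₀) = - 1`; the quotient of the product by its image under `g₀` is a root of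
unity. By the independence of characters the part of the product with the character `χ_x` has
the same valuation as its conjugate; if all slopes in it are equal, it contains two numbers
with opposite signs, whose product is `q` up to a root of unity. If there are different
slopes, a product of powers of two numbers is a relation.
-/

set_option autoImplicit false

namespace Pool.Agent.Results.MP_2ce3e7_ag.OnePlaceProducts

open Polynomial Pool.Agent.H856.PR Pool.Agent.Q64.L

/-- **The criterion**, and the reduction. -/
theorem result {p a : ℕ} [Fact p.Prime] {E : Type} [Field E] [NumberField E] {I : Type}
    [Fintype I] {P : I → E[X]} {Γ : (I × (E →+* ℂ)) × Fin 2 → ℂ} (h : IsFamily p a P Γ)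
    {M : Subfield ℂ} (hM : Avoids Γ M) :
    (NoRelations ((p : ℂ) ^ a) Γ M ↔ SameSlopes p P) ∧
    (SameSlopes p P → ∀ (J : Type) (f : J → ℤ[X]), (∀ j, (f j).Monic) →
      (∀ j (z : ℂ), aeval z (f j) = 0 → ∃ x, Γ x = z) →
      TBReduces (RootsIn (PowerIn M)) (p ^ a) f) :=
  ⟨criterion h hM, fun hs _ _ hf hroot => tbReduces (one_lt_pow₀
    (Fact.out : p.Prime).one_lt h.pos.ne') (good_of_noRel (noRel h hs hM hf hroot) (not_powerIn_zero M))⟩

end Pool.Agent.Results.MP_2ce3e7_ag.OnePlaceProducts
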